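import Pool.Agent.helper50.PHN.Spec

set_option autoImplicit false

namespace Pool.Agent.PHN

open Finset

theorem INI_per (n : ℕ) (a x s : ℤ) (h : (n : ℤ) ∣ s) : ind n a (x + s) = ind n a x := by
  unfold ind
  have : ((n : ℤ) ∣ x + s + a) ↔ ((n : ℤ) ∣ x + a) := by
    have e : x + s + a = (x + a) + s := by ring
    rw [e]
    exact (Int.dvd_add_left h)
  by_cases h1 : (n : ℤ) ∣ x + a
  · rw [if_pos h1, if_pos (this.mpr h1)]
  · rw [if_neg h1, if_neg (fun h2 => h1 (this.mp h2))]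

theorem INI_nn (n : ℕ) (a x : ℤ) : 0 ≤ ind n a x := by
  unfold ind; split_ifs <;> norm_num

theorem INI_le (n : ℕ) (a x : ℤ) : ind n a x ≤ 1 := by
  unfold ind; split_ifs <;> norm_num

theorem INI (hUUD : UUD_stmt) (hCLM : CLM_stmt) : INI_stmt := by
  intro D
  obtain ⟨hT, hWT, _, hWu, _, _⟩ := hUUD.2 D
  have hW0 : (0 : ℝ) < D.W := by exact_mod_cast D.W1
  refine ⟨?_, ?_, ?_, ?_, ?_, ?_, ?_⟩
  · intro x
    exact mul_nonneg hW0.le (INI_nn _ _ _)
  · intro x
    show (D.W : ℝ) * ind D.W (-D.b) (x + D.T) = D.W * ind D.W (-D.b) x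
    rw [INI_per _ _ _ _ (by exact_mod_cast hWT)]
  · intro p hp hq x
    show (D.W : ℝ) * ind D.W (-D.b) (x + uu D.T p) = D.W * ind D.W (-D.b) x
    rw [INI_per _ _ _ _ (by exact_mod_cast hWu p hp hq)]
  · have h := hCLM D.T D.W (-D.b) hT hWT
    unfold mu at h ⊢
    rw [← Finset.mul_sum, mul_div_assoc, h]
    field_simp
  · intro x hx
    by_contra h
    apply hx
    show (D.W : ℝ) * ind D.W (-D.b) x = 0
    unfold ind
    rw [if_neg, mul_zero]
    intro h2
    apply h
    rw [sub_eq_add_neg]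
    exact h2
  · intro n a hn _
    have h := hCLM D.T n a hT hn
    have hn1 : 1 ≤ n := Nat.pos_of_dvd_of_pos hn hT
    have hn0 : (0 : ℝ) < n := by exact_mod_cast hn1
    have hTr : (0 : ℝ) < (D.T : ℝ) := by exact_mod_cast hT
    have hg : 1 ≤ gg D.δ D.q0 n := by
      unfold gg
      have h0 : ∏ _p ∈ n.primeFactors.filter (fun p => D.q0 ≤ p), (1 : ℝ) ≤
          ∏ p ∈ n.primeFactors.filter (fun p => D.q0 ≤ p), (1 + 2 * D.δ p) := by
        refine Finset.prod_le_prod (fun _ _ => zero_le_one) fun p hp => ?_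
        have := D.dpos p (Finset.mem_filter.mp hp).2
        linarith
      rwa [Finset.prod_const_one] at h0
    have h1 : mu D.T (fun x => (fun x => (D.W : ℝ) * ind D.W (-D.b) x) x * ind n a x) ≤ D.W * mu D.T (ind n a) := by
      unfold mu
      rw [← mul_div_assoc, Finset.mul_sum]
      refine div_le_div_of_nonneg_right (Finset.sum_le_sum fun x _ => ?_) hTr.le
      show (D.W : ℝ) * ind D.W (-D.b) x * ind n a x ≤ D.W * ind n a x
      refine mul_le_mul_of_nonneg_right ?_ (INI_nn _ _ _)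
      calc (D.W : ℝ) * ind D.W (-D.b) x ≤ D.W * 1 := mul_le_mul_of_nonneg_left (INI_le _ _ _) hW0.le
        _ = D.W := mul_one _
    refine h1.trans ?_
    rw [h, mul_div_assoc]
    refine mul_le_mul_of_nonneg_left (div_le_div_of_nonneg_right hg hn0.le) hW0.le
  · intro p _ h1 h2
    exact absurd h1 (not_le.mpr h2)

end Pool.Agent.PHN
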