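import Pool.Agent.helper50.PHN.Spec

set_option autoImplicit false

namespace Pool.Agent.PHN

open Finset

theorem TSQ_conv (N : ℕ) (a b : ℕ → ℝ) (ha : ∀ n, 0 ≤ a n) (hb : ∀ n, 0 ≤ b n) :
    ∑ d ∈ Icc 1 N, ∑ e ∈ d.divisors, a e * b (d / e) ≤ (∑ e ∈ Icc 1 N, a e) * ∑ f ∈ Icc 1 N, b f := by
  classical
  have h1 : ∀ d ∈ Icc 1 N, ∑ e ∈ d.divisors, a e * b (d / e) = ∑ x ∈ d.divisorsAntidiagonal, a x.1 * b x.2 := by
    intro d _
    exact (Nat.sum_divisorsAntidiagonal (f := fun x y => a x * b y) (n := d)).symm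
  rw [Finset.sum_congr rfl h1, ← Finset.sum_biUnion]
  · rw [Finset.sum_mul_sum, ← Finset.sum_product']
    refine Finset.sum_le_sum_of_subset_of_nonneg ?_ fun x _ _ => mul_nonneg (ha _) (hb _)
    intro x hx
    rw [Finset.mem_biUnion] at hx
    obtain ⟨d, hd, hx⟩ := hx
    rw [Nat.mem_divisorsAntidiagonal] at hx
    rw [Finset.mem_Icc] at hd
    obtain ⟨h2, h3⟩ := hx
    have h4 : x.1 ≠ 0 := by
      intro h
      rw [h, Nat.zero_mul] at h2
      exact h3 h2.symm
    have h5 : x.2 ≠ 0 := by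
      intro h
      rw [h, Nat.mul_zero] at h2
      exact h3 h2.symm
    rw [Finset.mem_product, Finset.mem_Icc, Finset.mem_Icc]
    have h6 : x.1 ≤ d := by
      rw [← h2]
      exact Nat.le_mul_of_pos_right _ (Nat.pos_of_ne_zero h5)
    have h7 : x.2 ≤ d := by
      rw [← h2]
      exact Nat.le_mul_of_pos_left _ (Nat.pos_of_ne_zero h4)
    omega
  · intro d _ d' _ hdd
    rw [Function.onFun, Finset.disjoint_left]
    intro x hx hx'
    rw [Nat.mem_divisorsAntidiagonal] at hx hx'
    exact hdd (hx.1.symm.trans hx'.1)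

theorem TSQ_one (j : ℕ) : tau j 1 = 1 := by
  induction j with
  | zero => simp [tau]
  | succ j ih => simp [tau, ih]

theorem TSQ (hTAU : TAU_stmt) (hTSM : TSM_stmt) : TSQ_stmt := by
  classical
  intro j Y D hY hD
  obtain ⟨hsub, _, _, _, _⟩ := hTAU
  set N : ℕ := ⌊Y⌋₊ with hN
  have hIcc : ∀ d ∈ Icc 1 N, 1 ≤ d ∧ (d : ℝ) ≤ Y := by
    intro d hd
    rw [Finset.mem_Icc] at hd
    refine ⟨hd.1, ?_⟩
    exact (Nat.cast_le.mpr hd.2).trans (Nat.floor_le (by linarith))
  have hsubset : D ⊆ Icc 1 N := by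
    intro d hd
    rw [Finset.mem_Icc]
    exact ⟨(hD d hd).1, Nat.le_floor (hD d hd).2⟩
  have hL : 0 ≤ 1 + Real.log Y := by
    have := Real.log_nonneg hY
    linarith
  have key : ∀ i : ℕ, ∑ d ∈ Icc 1 N, ((tau i d : ℝ) * (tau j d : ℝ)) / d ≤ (1 + Real.log Y) ^ (j * i) := by
    intro i
    induction i with
    | zero =>
      have h1 : ∀ d ∈ Icc 1 N, ((tau 0 d : ℝ) * (tau j d : ℝ)) / d = if d = 1 then 1 else 0 := by
        intro d _
        by_cases h : d = 1
        · rw [h, TSQ_one, TSQ_one]; simp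
        · simp [tau, h]
      rw [Finset.sum_congr rfl h1, Finset.sum_ite_eq']
      simp only [Nat.mul_zero, pow_zero]
      split_ifs <;> norm_num
    | succ i ih =>
      have h1 : ∀ d ∈ Icc 1 N, ((tau (i + 1) d : ℝ) * (tau j d : ℝ)) / d ≤
          ∑ e ∈ d.divisors, (((tau i e : ℝ) * (tau j e : ℝ)) / e) * ((tau j (d / e) : ℝ) / ((d / e : ℕ) : ℝ)) := by
        intro d hd
        rw [Finset.mem_Icc] at hd
        have h2 : (tau (i + 1) d : ℝ) = ∑ e ∈ d.divisors, (tau i e : ℝ) := by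
          simp only [tau]
          push_cast
          rfl
        rw [h2, Finset.sum_mul, Finset.sum_div]
        refine Finset.sum_le_sum fun e he => ?_
        rw [Nat.mem_divisors] at he
        obtain ⟨f, hf⟩ := he.1
        have hd0 : d ≠ 0 := he.2
        have he0 : e ≠ 0 := by
          rintro rfl
          rw [Nat.zero_mul] at hf
          exact hd0 hf
        have hf0 : f ≠ 0 := by
          rintro rfl
          rw [Nat.mul_zero] at hf
          exact hd0 hf
        have hdf : d / e = f := by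
          rw [hf]
          exact Nat.mul_div_cancel_left f (Nat.pos_of_ne_zero he0)
        rw [hdf, hf]
        have h3 : (tau j (e * f) : ℝ) ≤ (tau j e : ℝ) * (tau j f : ℝ) := by
          exact_mod_cast hsub j e f he0 hf0
        have he1 : (0 : ℝ) < e := by exact_mod_cast Nat.pos_of_ne_zero he0
        have hf1 : (0 : ℝ) < f := by exact_mod_cast Nat.pos_of_ne_zero hf0
        rw [div_mul_div_comm]
        push_cast
        refine div_le_div_of_nonneg_right ?_ (by positivity)
        calc (tau i e : ℝ) * (tau j (e * f) : ℝ) ≤ (tau i e : ℝ) * ((tau j e : ℝ) * (tau j f : ℝ)) :=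
              mul_le_mul_of_nonneg_left h3 (Nat.cast_nonneg _)
          _ = (tau i e : ℝ) * (tau j e : ℝ) * (tau j f : ℝ) := by ring
      refine (Finset.sum_le_sum h1).trans ?_
      refine (TSQ_conv N (fun e => ((tau i e : ℝ) * (tau j e : ℝ)) / e) (fun f => (tau j f : ℝ) / (f : ℝ))
        (fun n => by positivity) (fun n => by positivity)).trans ?_
      have h4 := hTSM j Y (Icc 1 N) hY hIcc
      have h5 : (1 + Real.log Y) ^ (j * (i + 1)) = (1 + Real.log Y) ^ (j * i) * (1 + Real.log Y) ^ j := by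
        rw [← pow_add]
        congr 1
      rw [h5]
      refine mul_le_mul ih h4 (Finset.sum_nonneg fun n _ => by positivity) (pow_nonneg hL _)
  refine le_trans ?_ (key j)
  have h6 : ∑ d ∈ D, (tau j d : ℝ) ^ 2 / d ≤ ∑ d ∈ Icc 1 N, (tau j d : ℝ) ^ 2 / d :=
    Finset.sum_le_sum_of_subset_of_nonneg hsubset fun n _ _ => by positivity
  refine h6.trans (le_of_eq (Finset.sum_congr rfl fun d _ => ?_))
  rw [sq]

end Pool.Agent.PHN
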