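import Pool.Agent.helper50.PHN.Spec

set_option autoImplicit false

namespace Pool.Agent.PHN

open Finset

theorem WOM_tot (n : ℕ) : (n : ℝ) ≤ 2 ^ n.primeFactors.card * n.totient := by
  have h1 := Nat.totient_mul_prod_primeFactors n
  have h2 : ∏ p ∈ n.primeFactors, p ≤ 2 ^ n.primeFactors.card * ∏ p ∈ n.primeFactors, (p - 1) := by
    rw [← Finset.prod_const, ← Finset.prod_mul_distrib]
    refine Finset.prod_le_prod' fun p hp => ?_
    have := (Nat.prime_of_mem_primeFactors hp).two_le
    omega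
  have h3 : 0 < ∏ p ∈ n.primeFactors, (p - 1) := by
    refine Finset.prod_pos fun p hp => ?_
    have := (Nat.prime_of_mem_primeFactors hp).two_le
    omega
  have h4 : n * ∏ p ∈ n.primeFactors, (p - 1) ≤ (2 ^ n.primeFactors.card * n.totient) * ∏ p ∈ n.primeFactors, (p - 1) := by
    rw [← h1]
    calc n.totient * ∏ p ∈ n.primeFactors, p ≤ n.totient * (2 ^ n.primeFactors.card * ∏ p ∈ n.primeFactors, (p - 1)) :=
          Nat.mul_le_mul_left _ h2
      _ = (2 ^ n.primeFactors.card * n.totient) * ∏ p ∈ n.primeFactors, (p - 1) := by ring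
  have h5 := Nat.le_of_mul_le_mul_right h4 h3
  exact_mod_cast h5

theorem WOM_two (n : ℕ) (hn : n ≠ 0) : 2 ^ n.primeFactors.card ≤ n.divisors.card := by
  rw [Nat.card_divisors hn, ← Finset.prod_const]
  refine Finset.prod_le_prod' fun p hp => ?_
  have h1 : 1 ≤ n.factorization p := by
    rw [Nat.mem_primeFactors] at hp
    exact (hp.1.dvd_iff_one_le_factorization hn).mp hp.2.1
  omega

theorem WOM (hTAU : TAU_stmt) (hTSQ : TSQ_stmt) : WOM_stmt := by
  intro Y F hY hF
  obtain ⟨_, _, _, _, h2⟩ := hTAU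
  have h := hTSQ 2 Y F hY hF
  norm_num at h
  refine le_trans (Finset.sum_le_sum fun n hn => ?_) h
  have hn1 := (hF n hn).1
  have hn0 : (0 : ℝ) < n := by exact_mod_cast hn1
  have ht : (0 : ℝ) < n.totient := by exact_mod_cast Nat.totient_pos.mpr hn1
  have h3 := WOM_tot n
  have h4 : (2 : ℝ) ^ n.primeFactors.card ≤ (tau 2 n : ℝ) := by
    rw [h2 n]
    exact_mod_cast WOM_two n (by omega)
  rw [div_le_div_iff₀ ht hn0]
  calc (2 : ℝ) ^ n.primeFactors.card * n ≤ 2 ^ n.primeFactors.card * (2 ^ n.primeFactors.card * n.totient) :=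
        mul_le_mul_of_nonneg_left h3 (by positivity)
    _ = (2 ^ n.primeFactors.card) ^ 2 * n.totient := by ring
    _ ≤ (tau 2 n : ℝ) ^ 2 * n.totient := by
        refine mul_le_mul_of_nonneg_right ?_ ht.le
        exact pow_le_pow_left₀ (by positivity) h4 2

end Pool.Agent.PHN
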